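import Mathlib

set_option autoImplicit false

open MeasureTheory Set

namespace Pool.Agent.Results.MP_842e08_an.SelfImprove

/-- A weight on the line: a nonnegative locally integrable function. -/
def IsWeight (U : ℝ → ℝ) : Prop := (∀ x, 0 ≤ U x) ∧ LocallyIntegrable U volume

/-- The class `A_p`: for all bounded intervals `I = [a,b]`,
`(1/|I| ∫_I U) (1/|I| ∫_I U^(-1/(p-1)))^(p-1) ≤ C`. -/
def InA (p : ℝ) (U : ℝ → ℝ) : Prop :=
  ∃ C : ℝ, ∀ a b : ℝ, a < b →
    (ENNReal.ofReal (1 / (b - a)) * ∫⁻ x in Icc a b, ENNReal.ofReal (U x)) *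
      (ENNReal.ofReal (1 / (b - a)) *
        ∫⁻ x in Icc a b, ENNReal.ofReal (U x) ^ (-1 / (p - 1))) ^ (p - 1)
      ≤ ENNReal.ofReal C

/-- The class `B_r`: for all bounded intervals `I` with centre `c` and length `h`,
`∫ h^(r-1) U(x) / (h^r + |x-c|^r) dx ≤ (C/h) ∫_I U`. -/
def InB (r : ℝ) (U : ℝ → ℝ) : Prop :=
  ∃ C : ℝ, ∀ c h : ℝ, 0 < h →
    ∫⁻ x, ENNReal.ofReal (h ^ (r - 1) * U x / (h ^ r + |x - c| ^ r)) ≤
      ENNReal.ofReal (C / h) * ∫⁻ x in Icc (c - h / 2) (c + h / 2), ENNReal.ofReal (U x)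

section core

variable (u : ℝ → ENNReal)

/-- mass of the interval with centre `c` and radius `s`. -/
noncomputable def V (c s : ℝ) : ENNReal := ∫⁻ x in Icc (c - s) (c + s), u x

/-- the potential `∫ u / (h^r + |x-c|^r)`. -/
noncomputable def T (r c h : ℝ) : ENNReal :=
  ∫⁻ x, ENNReal.ofReal (1 / (h ^ r + |x - c| ^ r)) * u x

theorem V_mono (c : ℝ) {s t : ℝ} (h : s ≤ t) : V u c s ≤ V u c t :=
  lintegral_mono_set (Icc_subset_Icc (by linarith) (by linarith))

theorem V_eq (c s : ℝ) : V u c s = ∫⁻ x, (Icc (c - s) (c + s)).indicator (fun _ => 1) x * u x := by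
  unfold V
  rw [← lintegral_indicator measurableSet_Icc]
  congr 1
  funext x
  by_cases hx : x ∈ Icc (c - s) (c + s) <;> simp [hx]

theorem mem_Icc_abs (c s x : ℝ) : x ∈ Icc (c - s) (c + s) ↔ |x - c| ≤ s := by
  rw [mem_Icc, abs_le]
  constructor
  · rintro ⟨h1, h2⟩; constructor <;> linarith
  · rintro ⟨h1, h2⟩; constructor <;> linarith

/-- the elementary pointwise inequality behind the decay of the potential. -/
theorem pointwise {r h y : ℝ} (hr : 0 < r) (hh : 0 < h) (hy : 0 ≤ y) :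
    1 / ((2 * h) ^ r + y ^ r) + (if y ≤ h then (2 ^ r - 1) / (2 * (2 ^ r + 1)) / h ^ r else 0) ≤
      1 / (h ^ r + y ^ r) := by
  have h2 : (1 : ℝ) < 2 ^ r := Real.one_lt_rpow (by norm_num) hr
  have hpow : (2 * h) ^ r = 2 ^ r * h ^ r := Real.mul_rpow (by norm_num) hh.le
  have ha : 0 < h ^ r := Real.rpow_pos_of_pos hh r
  have hb : 0 ≤ y ^ r := Real.rpow_nonneg hy r
  rw [hpow]
  set A := (2 : ℝ) ^ r
  set a := h ^ r
  set b := y ^ r with hbdef
  split_ifs with hle
  · have hba : b ≤ a := Real.rpow_le_rpow hy hle hr.le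
    have e : 1 / (a + b) - 1 / (A * a + b) = (A - 1) * a / ((a + b) * (A * a + b)) := by
      have : a + b ≠ 0 := by positivity
      have : A * a + b ≠ 0 := by positivity
      field_simp
      ring
    have e2 : (A - 1) / (2 * (A + 1)) / a ≤ (A - 1) * a / ((a + b) * (A * a + b)) := by
      rw [div_div, div_le_div_iff₀ (by positivity) (by positivity)]
      have h3 : (a + b) * (A * a + b) ≤ (2 * a) * ((A + 1) * a) := by
        apply mul_le_mul (by linarith) (by nlinarith) (by positivity) (by positivity)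
      have h4 : 0 ≤ A - 1 := by linarith
      calc (A - 1) * ((a + b) * (A * a + b)) ≤ (A - 1) * ((2 * a) * ((A + 1) * a)) :=
            mul_le_mul_of_nonneg_left h3 h4
        _ = (A - 1) * a * (2 * (A + 1) * a) := by ring
    linarith
  · rw [add_zero]
    apply one_div_le_one_div_of_le (by positivity)
    nlinarith

theorem T_step (hu : AEMeasurable u volume) {r c h : ℝ} (hr : 0 < r) (hh : 0 < h) :
    T u r c (2 * h) + ENNReal.ofReal ((2 ^ r - 1) / (2 * (2 ^ r + 1)) / h ^ r) * V u c h ≤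
      T u r c h := by
  have h2 : (1 : ℝ) < 2 ^ r := Real.one_lt_rpow (by norm_num) hr
  have ha : 0 < h ^ r := Real.rpow_pos_of_pos hh r
  have hc0 : 0 ≤ (2 ^ r - 1) / (2 * (2 ^ r + 1)) / h ^ r := by
    have : (0 : ℝ) ≤ 2 ^ r - 1 := by linarith
    positivity
  rw [V_eq]
  unfold T
  rw [← lintegral_const_mul' _ _ ENNReal.ofReal_ne_top, ← lintegral_add_left']
  · apply lintegral_mono
    intro x
    have hp := pointwise (y := |x - c|) hr hh (abs_nonneg _)
    show ENNReal.ofReal (1 / ((2 * h) ^ r + |x - c| ^ r)) * u x +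
      ENNReal.ofReal ((2 ^ r - 1) / (2 * (2 ^ r + 1)) / h ^ r) *
        ((Icc (c - h) (c + h)).indicator (fun _ => (1 : ENNReal)) x * u x) ≤
      ENNReal.ofReal (1 / (h ^ r + |x - c| ^ r)) * u x
    have hnn : 0 ≤ 1 / ((2 * h) ^ r + |x - c| ^ r) := by positivity
    by_cases hx : |x - c| ≤ h
    · have hx' : x ∈ Icc (c - h) (c + h) := (mem_Icc_abs c h x).2 hx
      rw [indicator_of_mem hx', one_mul, ← add_mul, ← ENNReal.ofReal_add hnn hc0]
      rw [if_pos hx] at hp
      gcongr
    · have hx' : x ∉ Icc (c - h) (c + h) := fun h' => hx ((mem_Icc_abs c h x).1 h')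
      rw [indicator_of_notMem hx', zero_mul, mul_zero, add_zero]
      rw [if_neg hx, add_zero] at hp
      gcongr
  · apply AEMeasurable.mul _ hu
    apply Measurable.aemeasurable
    apply Measurable.ennreal_ofReal
    have : Continuous fun x : ℝ => |x - c| := by fun_prop
    exact (measurable_const.add ((this.measurable).pow_const r)).const_div 1

/-- the geometric decay of the potential at doubled scales. -/
theorem T_double (hu : AEMeasurable u volume) {r c h C : ℝ} (hr : 0 < r) (hh : 0 < h)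
    (hC : 1 ≤ C) (hB : T u r c h ≤ ENNReal.ofReal (C / h ^ r) * V u c h) (hfin : V u c h ≠ ⊤) :
    T u r c (2 * h) ≤
      ENNReal.ofReal (1 - (2 ^ r - 1) / (2 * (2 ^ r + 1)) / C) * T u r c h := by
  have h2 : (1 : ℝ) < 2 ^ r := Real.one_lt_rpow (by norm_num) hr
  have ha : 0 < h ^ r := Real.rpow_pos_of_pos hh r
  set κ := ((2 : ℝ) ^ r - 1) / (2 * (2 ^ r + 1)) with hκ
  have hκ0 : 0 < κ := by
    have : (0 : ℝ) < 2 ^ r - 1 := by linarith
    positivity
  have hκ1 : κ ≤ 1 := by
    rw [hκ, div_le_one (by positivity)]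
    linarith
  have hstep := T_step u hu (c := c) hr hh
  rw [← hκ] at hstep
  have hTfin : T u r c h ≠ ⊤ := by
    intro hT
    rw [hT, top_le_iff] at hB
    exact ENNReal.mul_ne_top ENNReal.ofReal_ne_top hfin hB
  have hT2fin : T u r c (2 * h) ≠ ⊤ := by
    intro hT
    rw [hT, top_add, top_le_iff] at hstep
    exact hTfin hstep
  -- pass to real numbers
  have r1 : (T u r c (2 * h)).toReal + κ / h ^ r * (V u c h).toReal ≤ (T u r c h).toReal := by
    have := ENNReal.toReal_mono hTfin hstep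
    rwa [ENNReal.toReal_add hT2fin (ENNReal.mul_ne_top ENNReal.ofReal_ne_top hfin),
      ENNReal.toReal_mul, ENNReal.toReal_ofReal (by positivity)] at this
  have r2 : (T u r c h).toReal ≤ C / h ^ r * (V u c h).toReal := by
    have := ENNReal.toReal_mono (ENNReal.mul_ne_top ENNReal.ofReal_ne_top hfin) hB
    rwa [ENNReal.toReal_mul, ENNReal.toReal_ofReal (by positivity)] at this
  have r3 : (T u r c (2 * h)).toReal ≤ (1 - κ / C) * (T u r c h).toReal := by
    have h5 : κ / C * (T u r c h).toReal ≤ κ / h ^ r * (V u c h).toReal := by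
      calc κ / C * (T u r c h).toReal ≤ κ / C * (C / h ^ r * (V u c h).toReal) :=
            mul_le_mul_of_nonneg_left r2 (by positivity)
        _ = κ / h ^ r * (V u c h).toReal := by
            have : C ≠ 0 := by positivity
            field_simp
    linarith
  have hθ : 0 ≤ 1 - κ / C := by
    have : κ / C ≤ 1 := by
      rw [div_le_one (by positivity)]
      linarith
    linarith
  rw [← ENNReal.ofReal_toReal hT2fin]
  calc ENNReal.ofReal (T u r c (2 * h)).toReal
      ≤ ENNReal.ofReal ((1 - κ / C) * (T u r c h).toReal) := ENNReal.ofReal_le_ofReal r3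
    _ = ENNReal.ofReal (1 - κ / C) * T u r c h := by
        rw [ENNReal.ofReal_mul hθ, ENNReal.ofReal_toReal hTfin]

/-- the mass of an interval is controlled by the potential. -/
theorem V_le_T {r c h : ℝ} (hr : 0 < r) (hh : 0 < h) :
    V u c h ≤ ENNReal.ofReal (2 * h ^ r) * T u r c h := by
  have ha : 0 < h ^ r := Real.rpow_pos_of_pos hh r
  rw [V_eq]
  unfold T
  rw [← lintegral_const_mul' _ _ ENNReal.ofReal_ne_top]
  apply lintegral_mono
  intro x
  show (Icc (c - h) (c + h)).indicator (fun _ => (1 : ENNReal)) x * u x ≤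
    ENNReal.ofReal (2 * h ^ r) * (ENNReal.ofReal (1 / (h ^ r + |x - c| ^ r)) * u x)
  rw [← mul_assoc, ← ENNReal.ofReal_mul (by positivity)]
  by_cases hx : |x - c| ≤ h
  · rw [indicator_of_mem ((mem_Icc_abs c h x).2 hx)]
    apply mul_le_mul_left
    rw [← ENNReal.ofReal_one]
    apply ENNReal.ofReal_le_ofReal
    have hb : |x - c| ^ r ≤ h ^ r := Real.rpow_le_rpow (abs_nonneg _) hx hr.le
    have hb0 : 0 ≤ |x - c| ^ r := Real.rpow_nonneg (abs_nonneg _) r
    rw [mul_one_div, one_le_div (by positivity)]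
    linarith
  · rw [indicator_of_notMem (fun h' => hx ((mem_Icc_abs c h x).1 h')), zero_mul]
    exact zero_le

/-- the potential is controlled by the masses of the doubled intervals. -/
theorem T_le_sum (hu : AEMeasurable u volume) {q c h : ℝ} (hq : 0 < q) (hh : 0 < h) :
    T u q c h ≤ ENNReal.ofReal (1 / h ^ q) *
      (V u c h + ∑' k : ℕ, ENNReal.ofReal ((2 ^ (-q)) ^ k) * V u c (2 ^ (k + 1) * h)) := by
  have ha : 0 < h ^ q := Real.rpow_pos_of_pos hh q
  have e1 : ∀ k : ℕ, ENNReal.ofReal (((2 : ℝ) ^ (-q)) ^ k) * V u c (2 ^ (k + 1) * h) =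
      ∫⁻ x, ENNReal.ofReal (((2 : ℝ) ^ (-q)) ^ k) *
        ((Icc (c - 2 ^ (k + 1) * h) (c + 2 ^ (k + 1) * h)).indicator (fun _ => 1) x * u x) := by
    intro k
    rw [V_eq, lintegral_const_mul' _ _ ENNReal.ofReal_ne_top]
  simp_rw [e1]
  have hm : ∀ s : ℝ, AEMeasurable
      (fun x => (Icc (c - s) (c + s)).indicator (fun _ => (1 : ENNReal)) x * u x) volume := by
    intro s
    exact (measurable_const.indicator measurableSet_Icc).aemeasurable.mul hu
  rw [← lintegral_tsum (fun k => (hm _).const_mul _), V_eq, ← lintegral_add_left' (hm h),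
    ← lintegral_const_mul' _ _ ENNReal.ofReal_ne_top]
  unfold T
  apply lintegral_mono
  intro x
  set y := |x - c| with hy
  have hy0 : 0 ≤ y := abs_nonneg _
  show ENNReal.ofReal (1 / (h ^ q + y ^ q)) * u x ≤ ENNReal.ofReal (1 / h ^ q) *
    ((Icc (c - h) (c + h)).indicator (fun _ => (1 : ENNReal)) x * u x +
      ∑' k : ℕ, ENNReal.ofReal (((2 : ℝ) ^ (-q)) ^ k) *
        ((Icc (c - 2 ^ (k + 1) * h) (c + 2 ^ (k + 1) * h)).indicator (fun _ => 1) x * u x))
  have hyq : 0 ≤ y ^ q := Real.rpow_nonneg hy0 q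
  by_cases hx : y ≤ h
  · rw [indicator_of_mem ((mem_Icc_abs c h x).2 hx), one_mul]
    calc ENNReal.ofReal (1 / (h ^ q + y ^ q)) * u x ≤ ENNReal.ofReal (1 / h ^ q) * u x := by
          gcongr
          linarith
      _ ≤ _ := by
          gcongr
          exact le_self_add
  · push Not at hx
    -- the dyadic annulus of `x`
    obtain ⟨k, hk1, hk2⟩ : ∃ k : ℕ, 2 ^ k * h < y ∧ y ≤ 2 ^ (k + 1) * h := by
      have hex : ∃ k : ℕ, y ≤ 2 ^ k * h := by
        obtain ⟨k, hk⟩ := pow_unbounded_of_one_lt (y / h) (by norm_num : (1 : ℝ) < 2)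
        refine ⟨k, ?_⟩
        rw [div_lt_iff₀ hh] at hk
        exact hk.le
      classical
      have hspec := Nat.find_spec hex
      have hmin := fun m => Nat.find_min (m := m) hex
      rcases Nat.eq_zero_or_eq_succ_pred (Nat.find hex) with h0 | h0
      · rw [h0] at hspec
        simp at hspec
        linarith
      · refine ⟨(Nat.find hex).pred, ?_, ?_⟩
        · have := hmin (Nat.find hex).pred (by omega)
          push Not at this
          exact this
        · have e : (Nat.find hex).pred + 1 = Nat.find hex := by omega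
          rw [e]; exact hspec
    have hterm : ENNReal.ofReal (((2 : ℝ) ^ (-q)) ^ k) * u x ≤
        ∑' k : ℕ, ENNReal.ofReal (((2 : ℝ) ^ (-q)) ^ k) *
        ((Icc (c - 2 ^ (k + 1) * h) (c + 2 ^ (k + 1) * h)).indicator (fun _ => 1) x * u x) := by
      have := ENNReal.le_tsum (f := fun k : ℕ => ENNReal.ofReal (((2 : ℝ) ^ (-q)) ^ k) *
        ((Icc (c - 2 ^ (k + 1) * h) (c + 2 ^ (k + 1) * h)).indicator
          (fun _ => (1 : ENNReal)) x * u x)) k
      rw [indicator_of_mem ((mem_Icc_abs c (2 ^ (k + 1) * h) x).2 hk2), one_mul] at this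
      exact this
    calc ENNReal.ofReal (1 / (h ^ q + y ^ q)) * u x
        ≤ ENNReal.ofReal (1 / h ^ q * ((2 : ℝ) ^ (-q)) ^ k) * u x := by
          gcongr
          have e3 : ((2 : ℝ) ^ (-q)) ^ k = 1 / (2 ^ k) ^ q := by
            rw [← Real.rpow_natCast, ← Real.rpow_natCast, ← Real.rpow_mul (by norm_num),
              ← Real.rpow_mul (by norm_num), one_div, ← Real.rpow_neg (by norm_num)]
            congr 1
            ring
          rw [e3, one_div_mul_one_div]
          apply one_div_le_one_div_of_le (by positivity)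
          rw [← Real.mul_rpow hh.le (by positivity)]
          have : (h * 2 ^ k) ^ q ≤ y ^ q :=
            Real.rpow_le_rpow (by positivity) (by linarith) hq.le
          linarith
      _ = ENNReal.ofReal (1 / h ^ q) * (ENNReal.ofReal (((2 : ℝ) ^ (-q)) ^ k) * u x) := by
          rw [ENNReal.ofReal_mul (by positivity), mul_assoc]
      _ ≤ _ := by
          gcongr
          exact hterm.trans le_add_self

/-- **Self-improvement, in terms of the potentials.** -/
theorem improve (hu : AEMeasurable u volume) (hfin : ∀ c s : ℝ, V u c s ≠ ⊤) {r : ℝ} (hr : 1 < r)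
    {C : ℝ} (hC : 1 ≤ C)
    (hB : ∀ c h : ℝ, 0 < h → T u r c h ≤ ENNReal.ofReal (C / h ^ r) * V u c (h / 2)) :
    ∃ q : ℝ, 1 < q ∧ q < r ∧ ∃ D : ℝ, ∀ c h : ℝ, 0 < h →
      T u q c h ≤ ENNReal.ofReal (D / h ^ q) * V u c (h / 2) := by
  have hr0 : 0 < r := by linarith
  have h2 : (1 : ℝ) < 2 ^ r := Real.one_lt_rpow (by norm_num) hr0
  set κ := ((2 : ℝ) ^ r - 1) / (2 * (2 ^ r + 1)) with hκ
  have hκ0 : 0 < κ := by
    have : (0 : ℝ) < 2 ^ r - 1 := by linarith
    positivity
  have hκ1 : κ < 1 := by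
    rw [hκ, div_lt_one (by positivity)]
    linarith
  set θ := 1 - κ / C with hθ
  have hκC : κ / C < 1 := by
    rw [div_lt_one (by positivity)]
    linarith
  have hκC0 : 0 < κ / C := by positivity
  have hθ0 : 0 < θ := by linarith
  have hθ1 : θ < 1 := by linarith
  -- decay at the scales `2^j h`
  have hdec : ∀ (c h : ℝ), 0 < h → ∀ j : ℕ,
      T u r c (2 ^ j * h) ≤ ENNReal.ofReal (θ ^ j) * T u r c h := by
    intro c h hh j
    induction j with
    | zero => simp
    | succ j ih =>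
      have hj : 0 < 2 ^ j * h := by positivity
      have hB' : T u r c (2 ^ j * h) ≤
          ENNReal.ofReal (C / (2 ^ j * h) ^ r) * V u c (2 ^ j * h) := by
        refine (hB c _ hj).trans ?_
        gcongr
        exact V_mono u c (by linarith)
      have := T_double u hu hr0 hj hC hB' (hfin _ _)
      rw [← hκ, ← hθ] at this
      calc T u r c (2 ^ (j + 1) * h) = T u r c (2 * (2 ^ j * h)) := by
            congr 1
            ring
        _ ≤ ENNReal.ofReal θ * T u r c (2 ^ j * h) := this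
        _ ≤ ENNReal.ofReal θ * (ENNReal.ofReal (θ ^ j) * T u r c h) := by gcongr
        _ = ENNReal.ofReal (θ ^ (j + 1)) * T u r c h := by
            rw [← mul_assoc, ← ENNReal.ofReal_mul hθ0.le, pow_succ']
  have hV : ∀ (c h : ℝ), 0 < h → ∀ j : ℕ,
      V u c (2 ^ j * h) ≤ ENNReal.ofReal (2 * C * (2 ^ r * θ) ^ j) * V u c (h / 2) := by
    intro c h hh j
    have hj : 0 < 2 ^ j * h := by positivity
    have ha : 0 < h ^ r := Real.rpow_pos_of_pos hh r
    calc V u c (2 ^ j * h) ≤ ENNReal.ofReal (2 * (2 ^ j * h) ^ r) * T u r c (2 ^ j * h) :=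
          V_le_T u hr0 hj
      _ ≤ ENNReal.ofReal (2 * (2 ^ j * h) ^ r) * (ENNReal.ofReal (θ ^ j) *
            (ENNReal.ofReal (C / h ^ r) * V u c (h / 2))) := by
          gcongr
          exact (hdec c h hh j).trans (by gcongr; exact hB c h hh)
      _ = ENNReal.ofReal (2 * C * (2 ^ r * θ) ^ j) * V u c (h / 2) := by
          rw [← mul_assoc, ← mul_assoc, ← ENNReal.ofReal_mul (by positivity),
            ← ENNReal.ofReal_mul (by positivity)]
          congr 2
          rw [Real.mul_rpow (by positivity) hh.le, mul_pow]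
          have e4 : ((2 : ℝ) ^ j) ^ r = (2 ^ r) ^ j := by
            rw [← Real.rpow_natCast, ← Real.rpow_natCast, ← Real.rpow_mul (by norm_num),
              ← Real.rpow_mul (by norm_num), mul_comm]
          rw [e4]
          field_simp
  -- the choice of `q`
  obtain ⟨δ, hδ0, hδ1, hδ2⟩ : ∃ δ : ℝ, 0 < δ ∧ δ < r - 1 ∧ (2 : ℝ) ^ δ * θ < 1 := by
    have hc : Filter.Tendsto (fun δ : ℝ => (2 : ℝ) ^ δ * θ) (nhds 0) (nhds ((2 : ℝ) ^ (0 : ℝ) * θ)) :=
      ((Real.continuous_const_rpow (by norm_num : (2 : ℝ) ≠ 0)).tendsto 0).mul_const θ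
    have ev1 : ∀ᶠ δ : ℝ in nhds 0, (2 : ℝ) ^ δ * θ < 1 :=
      hc.eventually_lt_const (by simpa using hθ1)
    have ev2 : ∀ᶠ δ : ℝ in nhds 0, δ < r - 1 := gt_mem_nhds (by linarith)
    have ev := (ev1.and ev2).filter_mono (nhdsWithin_le_nhds (s := Ioi (0 : ℝ)))
    have ev3 : ∀ᶠ δ : ℝ in nhdsWithin 0 (Ioi 0), 0 < δ := self_mem_nhdsWithin
    obtain ⟨δ, h1, h3⟩ := (ev.and ev3).exists
    exact ⟨δ, h3, h1.2, h1.1⟩
  refine ⟨r - δ, by linarith, by linarith, ?_⟩
  set q := r - δ with hq
  have hq0 : 0 < q := by linarith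
  set ρ := (2 : ℝ) ^ (-q) * (2 ^ r * θ) with hρ
  have hρ1 : ρ < 1 := by
    have : ρ = (2 : ℝ) ^ δ * θ := by
      rw [hρ, ← mul_assoc, ← Real.rpow_add (by norm_num)]
      congr 2
      rw [hq]; ring
    rw [this]; exact hδ2
  have hρ0 : 0 ≤ ρ := by positivity
  set M := 2 * C + 2 * C * (2 ^ r * θ) * (1 - ρ)⁻¹ with hM
  refine ⟨M, fun c h hh => ?_⟩
  have ha : 0 < h ^ q := Real.rpow_pos_of_pos hh q
  refine (T_le_sum u hu hq0 hh).trans ?_
  have h1ρ : 0 < 1 - ρ := by linarith
  have hsum : V u c h + ∑' k : ℕ, ENNReal.ofReal (((2 : ℝ) ^ (-q)) ^ k) *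
      V u c (2 ^ (k + 1) * h) ≤ ENNReal.ofReal M * V u c (h / 2) := by
    have h0 := hV c h hh 0
    rw [pow_zero, one_mul, pow_zero, mul_one] at h0
    have hk : ∀ k : ℕ, ENNReal.ofReal (((2 : ℝ) ^ (-q)) ^ k) * V u c (2 ^ (k + 1) * h) ≤
        ENNReal.ofReal (2 * C * (2 ^ r * θ) * ρ ^ k) * V u c (h / 2) := by
      intro k
      calc _ ≤ ENNReal.ofReal (((2 : ℝ) ^ (-q)) ^ k) *
            (ENNReal.ofReal (2 * C * (2 ^ r * θ) ^ (k + 1)) * V u c (h / 2)) := by
            gcongr
            exact hV c h hh (k + 1)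
        _ = _ := by
            rw [← mul_assoc, ← ENNReal.ofReal_mul (by positivity)]
            congr 2
            rw [hρ, mul_pow, pow_succ]
            ring_nf
    calc _ ≤ ENNReal.ofReal (2 * C) * V u c (h / 2) +
          ∑' k : ℕ, ENNReal.ofReal (2 * C * (2 ^ r * θ) * ρ ^ k) * V u c (h / 2) :=
          add_le_add h0 (ENNReal.tsum_le_tsum hk)
      _ = ENNReal.ofReal M * V u c (h / 2) := by
          rw [ENNReal.tsum_mul_right, ← ENNReal.ofReal_tsum_of_nonneg (fun k => by positivity)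
            ((summable_geometric_of_lt_one hρ0 hρ1).mul_left _), tsum_mul_left,
            tsum_geometric_of_lt_one hρ0 hρ1, ← add_mul, ← ENNReal.ofReal_add (by positivity)
            (by positivity)]
  calc _ ≤ ENNReal.ofReal (1 / h ^ q) * (ENNReal.ofReal M * V u c (h / 2)) := by gcongr
    _ = ENNReal.ofReal (M / h ^ q) * V u c (h / 2) := by
        rw [← mul_assoc, ← ENNReal.ofReal_mul (by positivity)]
        congr 2
        ring

end core

theorem weight_aemeas {U : ℝ → ℝ} (hU : IsWeight U) :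
    AEMeasurable (fun x => ENNReal.ofReal (U x)) volume :=
  hU.2.aestronglyMeasurable.aemeasurable.ennreal_ofReal

theorem weight_fin {U : ℝ → ℝ} (hU : IsWeight U) (c s : ℝ) :
    V (fun x => ENNReal.ofReal (U x)) c s ≠ ⊤ := by
  have h := hU.2.integrableOn_isCompact (isCompact_Icc (a := c - s) (b := c + s))
  unfold V
  rw [← ofReal_integral_eq_lintegral_ofReal h (Filter.Eventually.of_forall fun x => hU.1 x)]
  exact ENNReal.ofReal_ne_top

theorem inB_iff {U : ℝ → ℝ} (r : ℝ) :
    InB r U ↔ ∃ C : ℝ, 1 ≤ C ∧ ∀ c h : ℝ, 0 < h →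
      T (fun x => ENNReal.ofReal (U x)) r c h ≤
        ENNReal.ofReal (C / h ^ r) * V (fun x => ENNReal.ofReal (U x)) c (h / 2) := by
  have e : ∀ c h : ℝ, 0 < h →
      ∫⁻ x, ENNReal.ofReal (h ^ (r - 1) * U x / (h ^ r + |x - c| ^ r)) =
        ENNReal.ofReal (h ^ (r - 1)) * T (fun x => ENNReal.ofReal (U x)) r c h := by
    intro c h hh
    unfold T
    rw [← lintegral_const_mul' _ _ ENNReal.ofReal_ne_top]
    congr 1
    funext x
    have ha : 0 < h ^ r := Real.rpow_pos_of_pos hh r
    rw [← ENNReal.ofReal_mul (by positivity), ← ENNReal.ofReal_mul (by positivity)]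
    congr 1
    ring
  constructor
  · rintro ⟨C, hC⟩
    refine ⟨max C 1, le_max_right _ _, fun c h hh => ?_⟩
    have h1 := hC c h hh
    rw [e c h hh] at h1
    have hpos : 0 < h ^ (r - 1) := Real.rpow_pos_of_pos hh _
    have hne : ENNReal.ofReal (h ^ (r - 1)) ≠ 0 := by
      rw [Ne, ENNReal.ofReal_eq_zero, not_le]; exact hpos
    rw [← ENNReal.mul_le_mul_iff_right hne ENNReal.ofReal_ne_top]
    refine h1.trans ?_
    rw [← mul_assoc, ← ENNReal.ofReal_mul hpos.le]
    unfold V
    gcongr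
    have e2 : h ^ (r - 1) * (max C 1 / h ^ r) = max C 1 / h := by
      rw [Real.rpow_sub_one hh.ne']
      have : h ^ r ≠ 0 := (Real.rpow_pos_of_pos hh r).ne'
      field_simp
    rw [e2]
    exact div_le_div_of_nonneg_right (le_max_left _ _) hh.le
  · rintro ⟨C, _, hC⟩
    refine ⟨C, fun c h hh => ?_⟩
    rw [e c h hh]
    have hpos : 0 < h ^ (r - 1) := Real.rpow_pos_of_pos hh _
    calc _ ≤ ENNReal.ofReal (h ^ (r - 1)) * (ENNReal.ofReal (C / h ^ r) *
          V (fun x => ENNReal.ofReal (U x)) c (h / 2)) := by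
          gcongr
          exact hC c h hh
      _ = _ := by
          rw [← mul_assoc, ← ENNReal.ofReal_mul hpos.le]
          unfold V
          congr 2
          rw [Real.rpow_sub_one hh.ne']
          have : h ^ r ≠ 0 := (Real.rpow_pos_of_pos hh r).ne'
          field_simp

/-- the classes `B_q` increase with `q`. -/
theorem inB_mono {U : ℝ → ℝ} {q r : ℝ} (hq0 : 0 < q) (hqr : q ≤ r) (h : InB q U) :
    InB r U := by
  rw [inB_iff] at h ⊢
  obtain ⟨C, hC1, hC⟩ := h
  refine ⟨2 * C, by linarith, fun c h hh => ?_⟩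
  have haq : 0 < h ^ q := Real.rpow_pos_of_pos hh q
  have har : 0 < h ^ r := Real.rpow_pos_of_pos hh r
  have h1 : T (fun x => ENNReal.ofReal (U x)) r c h ≤
      ENNReal.ofReal (2 * h ^ q / h ^ r) * T (fun x => ENNReal.ofReal (U x)) q c h := by
    unfold T
    rw [← lintegral_const_mul' _ _ ENNReal.ofReal_ne_top]
    apply lintegral_mono
    intro x
    show ENNReal.ofReal (1 / (h ^ r + |x - c| ^ r)) * ENNReal.ofReal (U x) ≤
      ENNReal.ofReal (2 * h ^ q / h ^ r) *
        (ENNReal.ofReal (1 / (h ^ q + |x - c| ^ q)) * ENNReal.ofReal (U x))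
    set y := |x - c|
    have hy0 : 0 ≤ y := abs_nonneg _
    have hyq : 0 ≤ y ^ q := Real.rpow_nonneg hy0 q
    have hyr : 0 ≤ y ^ r := Real.rpow_nonneg hy0 r
    have key : 1 / (h ^ r + y ^ r) ≤ 2 * h ^ q / h ^ r * (1 / (h ^ q + y ^ q)) := by
      rw [div_mul_div_comm, mul_one, div_le_div_iff₀ (by positivity) (by positivity), one_mul]
      rcases le_total y h with hle | hle
      · have : y ^ q ≤ h ^ q := Real.rpow_le_rpow hy0 hle hq0.le
        nlinarith
      · have hy1 : 0 < y := lt_of_lt_of_le hh hle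
        have e3 : h ^ r * y ^ q ≤ h ^ q * y ^ r := by
          have h5 : h ^ (r - q) ≤ y ^ (r - q) := Real.rpow_le_rpow hh.le hle (by linarith)
          have e5 : h ^ r = h ^ (r - q) * h ^ q := by rw [← Real.rpow_add hh]; congr 1; ring
          have e6 : y ^ r = y ^ (r - q) * y ^ q := by rw [← Real.rpow_add hy1]; congr 1; ring
          rw [e5, e6]
          have := mul_le_mul_of_nonneg_right h5 (by positivity : 0 ≤ h ^ q * y ^ q)
          linarith
        nlinarith
    calc ENNReal.ofReal (1 / (h ^ r + y ^ r)) * ENNReal.ofReal (U x) ≤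
          ENNReal.ofReal (2 * h ^ q / h ^ r * (1 / (h ^ q + y ^ q))) * ENNReal.ofReal (U x) := by
          gcongr
      _ = _ := by rw [ENNReal.ofReal_mul (by positivity), mul_assoc]
  calc _ ≤ _ := h1
    _ ≤ ENNReal.ofReal (2 * h ^ q / h ^ r) * (ENNReal.ofReal (C / h ^ q) *
          V (fun x => ENNReal.ofReal (U x)) c (h / 2)) := by
        gcongr
        exact hC c h hh
    _ = _ := by
        rw [← mul_assoc, ← ENNReal.ofReal_mul (by positivity)]
        congr 2
        field_simp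

/-- **Self-improvement of the classes `B_r`**, and the coincidence of the known sufficient and
the known necessary condition: for `1 < lam ≤ 2`, `2/lam < p < 2` and every weight `U`,
`U ∈ A_p ∩ B_(lam p/2)` if and only if `U ∈ A_p ∩ B_q` for some `1 < q < min (lam p/2) lam`. -/
theorem result (lam p : ℝ) (h1 : 1 < lam) (h2 : lam ≤ 2) (h3 : 2 / lam < p) (h4 : p < 2)
    (U : ℝ → ℝ) (hU : IsWeight U) :
    (InA p U ∧ InB (lam * p / 2) U) ↔
      ∃ q : ℝ, 1 < q ∧ q < min (lam * p / 2) lam ∧ InA p U ∧ InB q U := by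
  have hl0 : 0 < lam := by linarith
  have hr : 1 < lam * p / 2 := by
    rw [div_lt_iff₀ hl0] at h3
    linarith
  have hmin : min (lam * p / 2) lam = lam * p / 2 := min_eq_left (by nlinarith)
  rw [hmin]
  constructor
  · rintro ⟨hA, hB⟩
    obtain ⟨C, hC1, hC⟩ := (inB_iff _).1 hB
    obtain ⟨q, hq1, hq2, D, hD⟩ := improve _ (weight_aemeas hU) (weight_fin hU) hr hC1 hC
    refine ⟨q, hq1, hq2, hA, (inB_iff _).2 ⟨max D 1, le_max_right _ _, fun c h hh => ?_⟩⟩
    refine (hD c h hh).trans ?_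
    have : 0 < h ^ q := Real.rpow_pos_of_pos hh q
    gcongr
    exact le_max_left _ _
  · rintro ⟨q, hq1, hq2, hA, hB⟩
    exact ⟨hA, inB_mono (by linarith) hq2.le hB⟩

end Pool.Agent.Results.MP_842e08_an.SelfImprove
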